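import Mathlib

set_option autoImplicit false

namespace Pool.Agent.Bei

open Set SimpleGraph

variable {V : Type} (G : SimpleGraph V)

/-- The number `c_G(T)` of connected components of `G ∖ T`. -/
noncomputable def cc (T : Set V) : ℕ := Nat.card (G.induce Tᶜ).ConnectedComponent

/-- Cut sets. -/
def Cut (T : Set V) : Prop := ∀ i ∈ T, cc G (T \ {i}) < cc G T

/-- Unmixedness of the binomial edge ideal. -/
def Unm : Prop := ∀ T, Cut G T → cc G T = T.ncard + cc G ∅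

def K (T : Set V) (x : V) : Set V := {y | ∃ hx hy, (G.induce Tᶜ).Reachable ⟨x, hx⟩ ⟨y, hy⟩}

def Con (A : Set V) : Prop := ∀ T, Disjoint A T → ∀ x ∈ A, A ⊆ K G T x

def N (A : Set V) : Set V := {t | ∃ a ∈ A, G.Adj a t}

def Far (A B : Set V) : Prop := Disjoint A B ∧ Disjoint (N G A) B

def Tight (T : Set V) : Prop := T.ncard + cc G ∅ ≤ cc G T

variable {G} {T S X Y A B U W P Q : Set V} {x y z w t : V}

lemma K_self (h : x ∉ T) : x ∈ K G T x := ⟨h, h, .rfl⟩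

lemma K_not (h : y ∈ K G T x) : y ∉ T := h.2.1

lemma K_step (h : y ∈ K G T x) (h1 : G.Adj y z) (h2 : z ∉ T) : z ∈ K G T x :=
  let ⟨h3, _, h4⟩ := h; ⟨h3, h2, h4.trans (Adj.reachable h1)⟩

lemma K_eq (h : y ∈ K G T x) : K G T y = K G T x :=
  let ⟨h3, h5, h4⟩ := h
  Subset.antisymm (fun _ ⟨_, h1, h2⟩ => ⟨h3, h1, h4.trans h2⟩)
    fun _ ⟨_, h1, h2⟩ => ⟨h5, h1, h4.symm.trans h2⟩

lemma K_ind (h : x ∈ A) (h' : ∀ y ∈ A, ∀ z, G.Adj y z → z ∉ T → z ∈ A) : K G T x ⊆ A := by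
  rintro y ⟨h1, h2, h3⟩
  have : ∀ u, Relation.ReflTransGen (G.induce Tᶜ).Adj ⟨x, h1⟩ u → u.1 ∈ A := fun u h4 => by
    induction h4 with
    | refl => exact h
    | @tail _ c _ h5 ih => exact h' _ ih _ h5 c.2
  exact this _ ((reachable_iff_reflTransGen _ _).1 h3)

lemma con_K : Con G (K G T x) := fun S h y hy =>
  (K_eq hy).symm.subset.trans <| (K_ind (A := K G T x ∩ K G S y)
    ⟨hy, K_self (disjoint_left.1 h hy)⟩ fun _ h1 _ h2 h3 =>
      have := K_step h1.1 h2 h3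
      ⟨this, K_step h1.2 h2 (disjoint_left.1 h this)⟩).trans inter_subset_right

lemma con_one : Con G {x} := fun _ h _ hy => by simp_all [K_self]

lemma Con.union (hA : Con G A) (hB : Con G B) (h1 : x ∈ A) (h2 : y ∈ B)
    (h : x = y ∨ G.Adj x y) : Con G (A ∪ B) := fun T h3 z hz => by
  rw [disjoint_union_left] at h3
  have h4 : y ∈ K G T x := by
    rcases h with rfl | h
    · exact hA T h3.1 x h1 h1
    · exact K_step (hA T h3.1 x h1 h1) h (disjoint_left.1 h3.2 h2)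
  have h5 : A ∪ B ⊆ K G T x := union_subset (hA T h3.1 x h1) (K_eq h4 ▸ hB T h3.2 y h2)
  rwa [K_eq (h5 hz)]

lemma tr (h0 : x ∉ T) (h : Disjoint (K G T x) S)
    (h' : ∀ y ∈ K G T x, ∀ z, G.Adj y z → z ∉ S → z ∈ K G T x) : K G S x = K G T x :=
  (K_ind (K_self h0) h').antisymm (con_K S h x (K_self h0))

lemma cc_eq : cc G T = (K G T '' Tᶜ).ncard := by
  have : ∀ v : ↥Tᶜ, Subtype.val '' ((G.induce Tᶜ).connectedComponentMk v).supp = K G T v :=
    fun v => by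
      ext y
      simp only [mem_image, ConnectedComponent.mem_supp_iff, ConnectedComponent.eq]
      exact ⟨fun ⟨u, h, e⟩ => e ▸ ⟨v.2, u.2, h.symm⟩, fun ⟨_, h1, h⟩ => ⟨⟨y, h1⟩, h.symm, rfl⟩⟩
  rw [cc, ← Nat.card_range_of_injective ((image_injective.2 Subtype.val_injective).comp
    ConnectedComponent.supp_injective), ← Nat.card_coe_set_eq]
  refine congrArg (fun s : Set (Set V) => Nat.card s) (Subset.antisymm ?_ ?_)
  · rintro _ ⟨C, rfl⟩
    induction C using ConnectedComponent.ind with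
    | h v => exact ⟨v, v.2, (this v).symm⟩
  · rintro _ ⟨v, h, rfl⟩
    exact ⟨_, this ⟨v, h⟩⟩

variable [Finite V]

lemma cc_lt (h1 : G.Adj x t) (h2 : G.Adj y t) (h3 : x ∉ S) (h4 : y ∉ S) (h5 : x ∉ K G S y) :
    cc G (S \ {t}) < cc G S := by
  have h6 : K G (S \ {t}) '' (S \ {t})ᶜ ⊆
      insert (K G (S \ {t}) t) (K G S '' Sᶜ \ {K G S x, K G S y}) := by
    rintro _ ⟨z, hz, rfl⟩
    by_cases h6 : t ∈ K G (S \ {t}) z
    · exact .inl (K_eq h6).symm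
    have h7 : Disjoint (K G (S \ {t}) z) S := disjoint_left.2 fun u h h' =>
      K_not h ⟨h', fun e => h6 (e ▸ h)⟩
    refine .inr ⟨⟨z, disjoint_left.1 h7 (K_self hz),
      tr hz h7 fun u h v h' h'' => K_step h h' fun e => h'' e.1⟩, ?_⟩
    rintro (h | h)
    · exact h6 (K_step (h ▸ K_self h3) h1 (by simp))
    · exact h6 (K_step (h ▸ K_self h4) h2 (by simp))
  have h7 := ncard_sdiff_add_ncard_of_subset (s := {K G S x, K G S y}) (t := K G S '' Sᶜ)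
    (pair_subset ⟨x, h3, rfl⟩ ⟨y, h4, rfl⟩)
  rw [ncard_pair fun e : K G S x = K G S y => h5 (e ▸ K_self h3)] at h7
  have := (ncard_le_ncard h6).trans (ncard_insert_le _ _)
  rw [cc_eq, cc_eq]
  omega

lemma Unm.le (h : Unm G) (T : Set V) : cc G T ≤ T.ncard + cc G ∅ := by
  induction T using WellFoundedLT.induction with
  | ind T ih =>
    by_cases h1 : Cut G T
    · exact (h T h1).le
    · simp only [Cut, not_forall, not_lt] at h1
      obtain ⟨i, h1, h2⟩ := h1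
      have := ih _ (sdiff_singleton_ssubset.2 h1)
      have := ncard_le_ncard (sdiff_subset (s := T) (t := {i}))
      omega

lemma lat (h : Unm G) (h1 : Tight G X) (h2 : Tight G Y) (h3 : w ∉ X) (h4 : w ∉ Y)
    (h5 : Y ⊆ X ∪ K G X w) (h6 : X ⊆ Y ∪ K G Y w) :
    Tight G (X ∩ Y) ∧ Tight G (X ∪ Y) ∧ K G X w ∩ K G Y w ⊆ K G (X ∪ Y) w := by
  let s := fun X => {E ∈ K G X '' Xᶜ | w ∉ E}
  have e : ∀ X, w ∉ X → (s X).ncard + 1 = cc G X := fun X h => by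
    rw [cc_eq, ← ncard_insert_of_notMem (a := K G X w) fun h' => h'.2 (K_self h)]
    refine congrArg _ (Subset.antisymm (insert_subset ⟨w, h, rfl⟩ fun _ h => h.1) ?_)
    rintro _ ⟨x, hx, rfl⟩
    exact or_iff_not_imp_left.2 fun h' => ⟨⟨x, hx, rfl⟩, fun h => h' (K_eq h).symm⟩
  have e1 : ∀ X Y : Set V, Y ⊆ X ∪ K G X w → s X ⊆ s (X ∪ Y) := by
    rintro X Y h _ ⟨⟨x, hx, rfl⟩, h'⟩
    have : Disjoint (K G X x) (X ∪ Y) := disjoint_left.2 fun u h1 h2 => h' <| by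
      have h3 := (h (h2.resolve_left (K_not h1))).resolve_left (K_not h1)
      rw [← K_eq h1, K_eq h3]
      exact K_self h3.1
    exact ⟨⟨x, disjoint_left.1 this (K_self hx),
      tr hx this fun u h v h' h'' => K_step h h' fun e => h'' (.inl e)⟩, h'⟩
  have e2 : s X ∩ s Y ⊆ s (X ∩ Y) := by
    rintro _ ⟨⟨⟨x, hx, rfl⟩, h'⟩, ⟨y, hy, e⟩, -⟩
    refine ⟨⟨x, fun h => hx h.1, tr hx (disjoint_left.2 fun u h h' => K_not h h'.1)
      fun u h v h1 h2 => ?_⟩, h'⟩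
    by_cases h3 : v ∈ X
    · exact e ▸ K_step (e ▸ h) h1 fun h => h2 ⟨h3, h⟩
    · exact K_step h h1 h3
  have e3 := union_subset (e1 X Y h5) (union_comm X Y ▸ e1 Y X h6)
  have h7 : w ∉ X ∪ Y := by simp [h3, h4]
  have := ncard_le_ncard e2
  have := ncard_le_ncard e3
  have := ncard_union_add_ncard_inter X Y
  have := ncard_union_add_ncard_inter (s X) (s Y)
  have := e X h3
  have := e Y h4
  have := e _ h7
  have := e (X ∩ Y) fun h => h3 h.1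
  have := h.le (X ∩ Y)
  have := h.le (X ∪ Y)
  unfold Tight at *
  refine ⟨by omega, by omega, fun y hy => by_contra fun h8 => ?_⟩
  have h9 : y ∉ X ∪ Y := by simp [K_not hy.1, K_not hy.2]
  rcases (eq_of_subset_of_ncard_le e3 (by omega)).ge (show K G (X ∪ Y) y ∈ s _ from
    ⟨⟨y, h9, rfl⟩, fun h => h8 (K_eq h ▸ K_self h9)⟩) with ⟨⟨x, -, e⟩, h⟩ | ⟨⟨x, -, e⟩, h⟩
  · exact h (e ▸ K_eq (e ▸ K_self h9 : y ∈ K G X x) ▸ K_eq hy.1 ▸ K_self h3)
  · exact h (e ▸ K_eq (e ▸ K_self h9 : y ∈ K G Y x) ▸ K_eq hy.2 ▸ K_self h4)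

omit [Finite V] in
lemma N_sub (h : A ⊆ K G X w) : N G A ⊆ X ∪ K G X w := fun _ ⟨_, h1, h2⟩ =>
  or_iff_not_imp_left.2 (K_step (h h1) h2)

lemma good (h : Unm G) (h1 : Con G P) (h2 : Con G Q) (h3 : Far G U P) (h4 : Far G W Q)
    (h5 : W ⊆ P) (h6 : U ⊆ Q) (h7 : w ∈ P) (h8 : w ∈ Q) : Tight G (N G U ∩ N G W) := by
  have : ∀ U P : Set V, Con G P → Far G U P → w ∈ P → ∃ S ⊆ N G U, Tight G S ∧ P ⊆ K G S w ∧
      N G U ∩ N G P ⊆ S := fun U P h1 h3 h7 => by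
    let B := K G (U ∪ N G U) w
    have h8 := h1 _ (disjoint_union_right.2 ⟨h3.1.symm, h3.2.symm⟩) w h7
    have h9 : Disjoint B (N G U ∩ N G B) := disjoint_left.2 fun u h h' => K_not h (.inr h'.1)
    have h10 : K G (N G U ∩ N G B) w = B := tr (h8 h7).1 h9 fun u h v h' h'' =>
      K_step h h' fun e => e.elim (fun e => K_not h (.inr ⟨v, e, h'.symm⟩))
        fun e => h'' ⟨e, u, h, h'⟩
    refine ⟨N G U ∩ N G B, inter_subset_left, (h _ ?_).ge, h8.trans h10.ge,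
      fun u ⟨h, v, h', h''⟩ => ⟨h, v, h8 h', h''⟩⟩
    rintro t ⟨⟨u, h11, h12⟩, v, h13, h14⟩
    exact cc_lt h12 h14 (fun ⟨_, a, h, h'⟩ => K_not h (.inr ⟨u, h11, h'.symm⟩))
      (disjoint_left.1 h9 h13) fun h => K_not (h10.le ((K_eq (h10.ge h13)).le h)) (.inl h11)
  obtain ⟨X, a1, a2, a3, a4⟩ := this U P h1 h3 h7
  obtain ⟨Y, b1, b2, b3, b4⟩ := this W Q h2 h4 h8
  convert (lat h a2 b2 (K_not (a3 h7)) (K_not (b3 h8)) (b1.trans (N_sub (h5.trans a3)))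
    (a1.trans (N_sub (h6.trans b3)))).1 using 1
  exact Subset.antisymm (fun t ⟨⟨u, c1, c2⟩, v, c3, c4⟩ =>
    ⟨a4 ⟨⟨u, c1, c2⟩, v, h5 c3, c4⟩, b4 ⟨⟨v, c3, c4⟩, u, h6 c1, c2⟩⟩) (inter_subset_inter a1 b1)

end Pool.Agent.Bei
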