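import Pool.Agent.H.MP_12e671_al.A

set_option autoImplicit false

namespace Pool.Agent.Bei

open Set SimpleGraph

variable {V : Type} {G : SimpleGraph V} {a b c d e f X A B C P Q : Set V} {x w t : V}

lemma Far.symm (h : Far G A B) : Far G B A :=
  ⟨h.1.symm, disjoint_left.2 fun _ ⟨_, h1, h2⟩ h3 => disjoint_left.1 h.2 ⟨_, h3, h2.symm⟩ h1⟩

lemma Far.union (h : Far G A B) (h' : Far G A C) : Far G A (B ∪ C) :=
  ⟨disjoint_union_right.2 ⟨h.1, h'.1⟩, disjoint_union_right.2 ⟨h.2, h'.2⟩⟩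

lemma Far.mono (h : Far G A B) (h' : C ⊆ B) : Far G A C :=
  ⟨h.1.mono_right h', h.2.mono_right h'⟩

lemma far_one (h : t ∉ A) (h' : t ∉ N G A) : Far G A {t} := by simp [Far, h, h']

lemma Con.un (hA : Con G A) (hB : Con G B) (h : C.Nonempty) (h1 : C ⊆ A) (h2 : C ⊆ B) :
    Con G (A ∪ B) :=
  hA.union hB (h1 h.some_mem) (h2 h.some_mem) (.inl rfl)

lemma Con.one (hA : Con G A) (h : B ⊆ A) (h' : t ∈ N G B) : Con G (A ∪ {t}) :=
  let ⟨_, h1, h2⟩ := h'; hA.union con_one (h h1) rfl (.inr h2)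

def St (G : SimpleGraph V) (a b c d : Set V) : Prop :=
  a.Nonempty ∧ Con G a ∧ Con G (a ∪ b) ∧ Far G a c ∧ Far G a d

def Hx (G : SimpleGraph V) (a b c d e f : Set V) : Prop :=
  St G a b c d ∧ St G b c d e ∧ St G c d e f ∧ St G d e f a ∧ St G e f a b ∧ St G f a b c

lemma Hx.rot (h : Hx G a b c d e f) : Hx G b c d e f a :=
  ⟨h.2.1, h.2.2.1, h.2.2.2.1, h.2.2.2.2.1, h.2.2.2.2.2, h.1⟩

lemma Hx.rev (h : Hx G a b c d e f) : Hx G a f e d c b := by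
  obtain ⟨⟨a1, a0, a2, a3, a4⟩, ⟨b1, b0, b2, b3, b4⟩, ⟨c1, c0, c2, c3, c4⟩, ⟨d1, d0, d2, d3, d4⟩,
    ⟨e1, e0, e2, e3, e4⟩, f1, f0, f2, f3, f4⟩ := h
  rw [union_comm] at a2 b2 c2 d2 e2 f2
  exact ⟨⟨a1, a0, f2, e3.symm, a4⟩, ⟨f1, f0, e2, d3.symm, f4⟩, ⟨e1, e0, d2, c3.symm, e4⟩,
    ⟨d1, d0, c2, b3.symm, d4⟩, ⟨c1, c0, b2, a3.symm, c4⟩, b1, b0, a2, f3.symm, b4⟩

def Mx (G : SimpleGraph V) (a c d e : Set V) : Prop :=
  ∀ t ∈ N G a, t ∉ a → t ∉ N G c → t ∉ N G e → t ∈ N G d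

lemma Hx.grow (h : Hx G a b c d e f) : ∃ u, Hx G u b c d e f ∧ Mx G u c d e := by
  obtain ⟨⟨⟨x, a1⟩, a0, a2, a3, a4⟩, hb, hc, ⟨d1, d0, d2, d3, d4⟩, ⟨e1, e0, e2, e3, e4⟩,
    f1, f0, f2, f3, f4⟩ := h
  let u := K G (c ∪ d ∪ e ∪ N G (c ∪ d ∪ e)) x
  have h0 := ((a3.union a4).union e3.symm).symm
  have h1 : a ⊆ u := a0 _ (disjoint_union_right.2 ⟨h0.1.symm, h0.2.symm⟩) x a1
  have h2 : Far G u (c ∪ d ∪ e) := Far.symm ⟨disjoint_left.2 fun _ h h' => K_not h' (.inl h),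
    disjoint_left.2 fun _ h h' => K_not h' (.inr h)⟩
  have h3 : ∀ b, Con G (a ∪ b) → Con G (u ∪ b) := fun b h => by
    convert con_K.un h ⟨x, a1⟩ h1 subset_union_left using 1
    grind
  refine ⟨u, ⟨⟨⟨x, h1 a1⟩, con_K, h3 b a2, h2.mono (by grind), h2.mono (by grind)⟩, hb, hc,
    ⟨d1, d0, d2, d3, (h2.mono (by grind)).symm⟩, ⟨e1, e0, e2, (h2.mono (by grind)).symm, e4⟩,
    f1, f0, union_comm _ _ ▸ h3 f (union_comm _ _ ▸ f2), f3, f4⟩, fun t h4 h5 h6 h7 => ?_⟩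
  obtain ⟨y, h8, h9⟩ := id h4
  obtain h | ⟨z, (h | h) | h, h'⟩ := not_not.1 fun h => h5 (K_step h8 h9 h)
  · exact (disjoint_left.1 h2.2 h4 h).elim
  · exact (h6 ⟨z, h, h'⟩).elim
  · exact ⟨z, h, h'⟩
  · exact (h7 ⟨z, h, h'⟩).elim

variable [Finite V]

lemma Hx.g1 (h : Hx G a b c d e f) (h0 : Unm G) : Tight G (N G a ∩ N G c) ∧
    ∀ w ∈ c ∪ d, c ∪ d ∪ (f ∪ a) ⊆ K G (N G a ∩ N G c) w := by
  obtain ⟨⟨a1, a0, a2, a3, a4⟩, -, ⟨c1, c0, c2, c3, c4⟩, ⟨d1, d0, d2, d3, d4⟩,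
    ⟨e1, e0, e2, e3, e4⟩, f1, f0, f2, f3, f4⟩ := h
  have h1 := c2.un d2 d1 (by simp) (by simp)
  have h2 := e2.un f2 f1 (by simp) (by simp)
  have h3 := (a3.union a4).union (a4.union e3.symm)
  have h4 := (c3.union c4).union (c4.union a3.symm)
  exact ⟨good h0 h1 h2 h3 h4 (by grind) (by grind) (.inr (.inr e1.some_mem))
    (.inl (.inl e1.some_mem)), fun w hw => subset_trans (by grind) ((h1.un h2 e1 (by grind)
      (by grind)) _ (disjoint_union_left.2 ⟨h3.2.symm.mono_right inter_subset_left,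
        h4.2.symm.mono_right inter_subset_right⟩) w (.inl (.inl hw)))⟩

lemma Hx.fin (h : Hx G a b c d e f) (h0 : Unm G) (h1 : Mx G a c d e) (h2 : Tight G X)
    (h3 : X ⊆ N G d) (h4 : w ∈ d) (h5 : a ⊆ K G X w)
    (h6 : ∀ t ∈ N G a, t ∈ N G d → t ∉ N G c → t ∉ N G e → t ∈ X) : False := by
  obtain ⟨x, hx⟩ := h.1.1
  obtain ⟨a1, a2⟩ := h.g1 h0
  obtain ⟨b1, b2⟩ := h.rev.g1 h0
  have a3 : a ∪ d ⊆ _ := subset_trans (by grind) (a2 w (.inr h4))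
  have b3 : a ∪ d ⊆ _ := subset_trans (by grind) (b2 w (.inr h4))
  obtain ⟨-, c1, c2⟩ := lat h0 a1 b1 (a3 (.inl hx)).1 (b3 (.inl hx)).1
    (inter_subset_left.trans (N_sub (subset_union_left.trans a3)))
    (inter_subset_left.trans (N_sub (subset_union_left.trans b3)))
  have c3 := (subset_inter a3 b3).trans c2
  have c4 := (subset_inter (subset_union_left.trans c3) h5).trans (lat h0 c1 h2 (c3 (.inl hx)).1
    (h5 hx).1 (h3.trans (N_sub (subset_union_right.trans c3)))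
    (subset_trans (by grind) (N_sub h5))).2.2
  refine disjoint_left.1 h.1.2.2.2.2.1 (K_ind hx (fun y hy t h7 h8 => by_contra fun h9 => ?_)
    ((K_eq (c4 hx)).ge (K_self (c4 hx).1))) h4
  have : t ∈ N G a := ⟨y, hy, h7⟩
  have := h1 t this h9
  grind

lemma Hx.side (h : Hx G a b c d e f) (h0 : Unm G) : ∃ X ⊆ N G d, Tight G X ∧
    (∀ w ∈ d, a ∪ d ⊆ K G X w) ∧ ∀ t ∈ N G a, t ∈ N G d → t ∉ N G e → t ∈ X := by
  obtain ⟨u, h1, h2⟩ := h.rot.grow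
  obtain ⟨a1, a2⟩ := h1.g1 h0
  refine ⟨_, inter_subset_right, a1, fun w hw => subset_trans (by grind) (a2 w (.inl hw)),
    fun t h3 h4 h5 => ⟨by_contra fun h6 => ?_, h4⟩⟩
  obtain ⟨⟨u1, u0, u2, u3, u4⟩, -, ⟨d1, d0, d2, d3, d4⟩, ⟨⟨w, e1⟩, e0, e2, e3, e4⟩, -,
    -, -, f2, -⟩ := id h1
  have h7 := d2.one subset_union_left h4
  have h8 := f2.one subset_union_left h3
  have h9 := (u3.union u4).union (far_one (disjoint_left.1 u3.symm.2 h4) h6)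
  have h10 := (e3.union e4).union (far_one (disjoint_left.1 e3.symm.2 h3) h5)
  exact h1.fin h0 h2 (good h0 h7 h8 h9 h10 (by grind) (by grind) (.inr rfl) (.inr rfl))
    inter_subset_right e1 (subset_trans (by grind) ((h7.un h8 (singleton_nonempty t)
      subset_union_right subset_union_right) _ (disjoint_union_left.2 ⟨h9.2.symm.mono_right inter_subset_left,
        h10.2.symm.mono_right inter_subset_right⟩) w (.inl (.inl (.inr e1))))) fun _ h h' _ _ =>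
          ⟨h, h'⟩

lemma Hx.false (h : Hx G a b c d e f) (h0 : Unm G) : False := by
  obtain ⟨u, h1, h2⟩ := h.grow
  obtain ⟨X, a1, a2, a3, a4⟩ := h1.side h0
  obtain ⟨Y, b1, b2, b3, b4⟩ := h1.rev.side h0
  obtain ⟨w, hw⟩ := h1.2.2.2.1.1
  have h3 := (a3 w hw (.inr hw)).1
  exact h1.fin h0 h2 (lat h0 a2 b2 h3 (b3 w hw (.inr hw)).1
    (b1.trans (N_sub (subset_union_right.trans (a3 w hw))))
    (a1.trans (N_sub (subset_union_right.trans (b3 w hw))))).1 (inter_subset_left.trans a1) hw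
    ((subset_union_left.trans (a3 w hw)).trans (con_K _
      (disjoint_left.2 fun _ h h' => K_not h h'.1) w (K_self h3)))
    fun t h4 h5 h6 h7 => ⟨a4 t h4 h5 h7, b4 t h4 h5 h6⟩

end Pool.Agent.Bei
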